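import Pool.Agent.H.MP_1d20a2_co.Corners

namespace Pool.Agent.Results.MP_1d20a2_co.Linear

open Pool.Agent.H.MP_1d20a2_co

theorem result (D : Type) [Fintype D] (σ α : Equiv.Perm D) (n : ℕ)
    (H : IsNonSplitDiagram σ α n) (hred : Reduced σ α ∨ NoCutVertex σ α) :
    ∃ S : Finset (Region σ α), (dual σ α).IsIndepSet (S : Set (Region σ α)) ∧
      ((dual σ α).induce (S : Set (Region σ α))ᶜ).Connected ∧ n ≤ 44 * S.card := by
  classical
  have h2 : Reduced σ α := hred.elim id (reduced_of_noCut H)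
  haveI : Finite (Region σ α) := Finite.of_surjective _ (region_surj σ α)
  letI : Fintype (Region σ α) := Fintype.ofFinite _
  have hR : Fintype.card (Region σ α) = n + 2 := by rw [← Nat.card_eq_fintype_card, H.euler]
  have hφ : ∀ d, region σ α (α d) = region σ α (σ d) := fun d => by
    rw [← region_step (α d), H.inv]
  obtain ⟨S, hS, hn⟩ := select σ (region σ α) H.rot_four (adj_ne H) h2 n H.card_darts hR
  obtain ⟨r⟩ : Nonempty (Region σ α) := Fintype.card_pos_iff.1 (by omega)
  obtain ⟨d0, -⟩ := region_surj σ α r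
  refine ⟨S, ?_, conn σ α (region σ α) (region_surj σ α) H.rot_four H.inv hφ (adj_ne H)
    H.connected d0 S hS, hn⟩
  intro a ha b hb _ hab
  rw [dual, SimpleGraph.fromRel_adj] at hab
  rcases hab.2 with ⟨d, rfl, rfl⟩ | ⟨d, rfl, rfl⟩
  · exact (hS d ha).1 (hφ d ▸ hb)
  · exact (hS d hb).1 (hφ d ▸ ha)

end Pool.Agent.Results.MP_1d20a2_co.Linear
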